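import Pool.Agent.H24.MR.Interface

/-!
# Module [ME]: weak Mertens in arithmetic progressions with absolute constants
-/

set_option autoImplicit false

open Finset Filter ArithmeticFunction ArithmeticFunction.vonMangoldt Complex

namespace Pool.Agent.H62.MR

section

variable {q : ℕ} {a : ZMod q}

/-- The Dirichlet series of the residue class for real `x > 1`. -/
theorem tsum_residueClass_eq [NeZero q] (ha : IsUnit a) {x : ℝ} (hx : 1 < x) :
    ∑' n, residueClass a n / (n : ℝ) ^ x =
        (LFunctionResidueClassAux a x).re + (q.totient : ℝ)⁻¹ / (x - 1) := by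
  refine ofReal_injective ?_
  simp only [ofReal_tsum, ofReal_div, ofReal_cpow (Nat.cast_nonneg _), ofReal_natCast,
    ofReal_add, ofReal_inv, ofReal_sub, ofReal_one]
  simp_rw [← LFunctionResidueClassAux_real ha hx,
    eqOn_LFunctionResidueClassAux ha <| Set.mem_ofPred.mpr (ofReal_re x ▸ hx), sub_add_cancel,
    LSeries, LSeries.term]
  refine tsum_congr fun n ↦ ?_
  split_ifs with hn
  · simp only [hn, residueClass_apply_zero, ofReal_zero, zero_div]
  · rfl

/-- two sided bound for the Dirichlet series near `1` -/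
theorem tsum_residueClass_bound [NeZero q] (ha : IsUnit a) :
    ∃ M : ℝ, 0 ≤ M ∧ ∀ x : ℝ, x ∈ Set.Ioc 1 2 →
      |∑' n, residueClass a n / (n : ℝ) ^ x - (q.totient : ℝ)⁻¹ / (x - 1)| ≤ M := by
  have hcont : ContinuousOn (fun x : ℝ ↦ (LFunctionResidueClassAux a x).re) (Set.Icc 1 2) :=
    continuous_re.continuousOn.comp (t := Set.univ) (continuousOn_LFunctionResidueClassAux a)
      (fun ⦃x⦄ a ↦ trivial) |>.comp continuous_ofReal.continuousOn fun x hx ↦ by
        simpa only [Set.mem_ofPred_eq, ofReal_re] using hx.1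
  obtain ⟨M, hM⟩ := isCompact_Icc.exists_bound_of_continuousOn hcont
  refine ⟨max M 0, le_max_right _ _, ?_⟩
  intro x hx
  rw [tsum_residueClass_eq ha hx.1, add_sub_cancel_right]
  exact (hM x (Set.mem_Icc_of_Ioc hx)).trans (le_max_left _ _)

theorem summable_residueClass (a : ZMod q) {x : ℝ} (hx : 1 < x) :
    Summable fun n : ℕ => residueClass a n / (n : ℝ) ^ x :=
  LSeries.summable_real_of_abscissaOfAbsConv_lt <|
    (abscissaOfAbsConv_residueClass_le_one a).trans_lt <| mod_cast hx

end

/-- weak Mertens in progressions -/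
theorem me : Pool.Agent.H24.MR.StatementME := by
  refine ⟨120, 1 / 120, by norm_num, by norm_num, ?_⟩
  intro q hq
  have : NeZero q := ⟨hq.ne'⟩
  obtain ⟨M, hM0, hM⟩ := tsum_residueClass_bound (q := q) (a := 1) isUnit_one
  have hsumE := summable_residueClass_non_primes_div (q := q) (1 : ZMod q)
  set E : ℝ := ∑' n : ℕ, (if n.Prime then 0 else residueClass (1 : ZMod q) n) / n with hE
  have hφ : (0 : ℝ) < (q.totient : ℝ) := by exact_mod_cast Nat.totient_pos.mpr hq
  set φ : ℝ := (q.totient : ℝ) with hφdef
  refine ⟨Real.exp (max 1 (φ * (5 * M + E))), ?_⟩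
  intro x hx
  have hx0 : 0 < x := (Real.exp_pos _).trans_le hx
  set l : ℝ := Real.log x with hl
  have hl' : max 1 (φ * (5 * M + E)) ≤ l := (Real.le_log_iff_exp_le hx0).mpr hx
  have hl1 : 1 ≤ l := (le_max_left _ _).trans hl'
  have hl2 : φ * (5 * M + E) ≤ l := (le_max_right _ _).trans hl'
  have hl0 : 0 < l := by linarith
  have hxe : x = Real.exp l := (Real.exp_log hx0).symm
  have hx1 : 1 ≤ x := by rw [hxe]; exact Real.one_le_exp hl0.le
  set f : ℕ → ℝ := fun n => residueClass (1 : ZMod q) n with hf
  have hf0 : ∀ n, 0 ≤ f n := fun n => residueClass_nonneg _ n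
  -- exponents
  set s : ℝ := 1 + 1 / (6 * l) with hs
  set s1 : ℝ := 1 + 1 / l with hs1
  set s2 : ℝ := 1 + 1 / (12 * l) with hs2
  have hsI : s ∈ Set.Ioc (1 : ℝ) 2 := by
    constructor
    · rw [hs]; have : 0 < 1 / (6 * l) := by positivity
      linarith
    · rw [hs]
      have : 1 / (6 * l) ≤ 1 := by
        rw [div_le_one (by positivity)]; linarith
      linarith
  have hs1I : s1 ∈ Set.Ioc (1 : ℝ) 2 := by
    constructor
    · rw [hs1]; have : 0 < 1 / l := by positivity
      linarith
    · rw [hs1]
      have : 1 / l ≤ 1 := by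
        rw [div_le_one (by positivity)]; linarith
      linarith
  have hs2I : s2 ∈ Set.Ioc (1 : ℝ) 2 := by
    constructor
    · rw [hs2]; have : 0 < 1 / (12 * l) := by positivity
      linarith
    · rw [hs2]
      have : 1 / (12 * l) ≤ 1 := by
        rw [div_le_one (by positivity)]; linarith
      linarith
  set S : Finset ℕ := Finset.Ioc ⌊x⌋₊ ⌊x ^ 120⌋₊ with hS
  -- pointwise inequality
  have hpt : ∀ n : ℕ, f n / (n : ℝ) ^ s ≤
      Real.exp 1 * (f n / (n : ℝ) ^ s1) + Real.exp (-10) * (f n / (n : ℝ) ^ s2) +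
        (if n ∈ S then f n / n else 0) := by
    intro n
    rcases Nat.eq_zero_or_pos n with rfl | hn
    · have : f 0 = 0 := residueClass_apply_zero _
      simp [this]
    have hn0 : (0 : ℝ) < n := by exact_mod_cast hn
    have hn1 : (1 : ℝ) ≤ n := by exact_mod_cast hn
    have t1 : 0 ≤ Real.exp 1 * (f n / (n : ℝ) ^ s1) := by
      have := hf0 n
      positivity
    have t2 : 0 ≤ Real.exp (-10) * (f n / (n : ℝ) ^ s2) := by
      have := hf0 n
      positivity
    have t3 : 0 ≤ (if n ∈ S then f n / n else 0) := by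
      have := hf0 n
      split_ifs <;> positivity
    by_cases h1 : (n : ℝ) ≤ x
    · have hle : f n / (n : ℝ) ^ s ≤ Real.exp 1 * (f n / (n : ℝ) ^ s1) := by
        have hlog : Real.log n ≤ l := Real.log_le_log hn0 h1
        have hlog0 : 0 ≤ Real.log n := Real.log_nonneg hn1
        rw [Real.rpow_def_of_pos hn0, Real.rpow_def_of_pos hn0, div_eq_mul_inv, div_eq_mul_inv,
          ← Real.exp_neg, ← Real.exp_neg]
        have : Real.exp (-(Real.log n * s)) ≤ Real.exp 1 * Real.exp (-(Real.log n * s1)) := by
          rw [← Real.exp_add]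
          apply Real.exp_le_exp.mpr
          have e1 : Real.log n * (1 / l) ≤ 1 := by
            rw [mul_one_div, div_le_one hl0]; exact hlog
          have e2 : 0 ≤ Real.log n * (1 / (6 * l)) := by positivity
          rw [hs, hs1]
          linarith
        calc f n * Real.exp (-(Real.log n * s)) ≤
            f n * (Real.exp 1 * Real.exp (-(Real.log n * s1))) :=
              mul_le_mul_of_nonneg_left this (hf0 n)
          _ = _ := by ring
      linarith
    · push Not at h1
      by_cases h2 : n ∈ S
      · have hle : f n / (n : ℝ) ^ s ≤ f n / n := by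
          apply div_le_div_of_nonneg_left (hf0 n) hn0
          conv_lhs => rw [← Real.rpow_one (n : ℝ)]
          exact Real.rpow_le_rpow_of_exponent_le hn1 hsI.1.le
        rw [if_pos h2]
        linarith
      · have h3 : x ^ 120 < n := by
          by_contra hcon
          push Not at hcon
          apply h2
          rw [hS, Finset.mem_Ioc]
          exact ⟨(Nat.floor_lt hx0.le).mpr h1, Nat.le_floor hcon⟩
        have hle : f n / (n : ℝ) ^ s ≤ Real.exp (-10) * (f n / (n : ℝ) ^ s2) := by
          have hlog : 120 * l ≤ Real.log n := by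
            have := Real.log_le_log (by positivity) h3.le
            rwa [Real.log_pow] at this
          rw [Real.rpow_def_of_pos hn0, Real.rpow_def_of_pos hn0, div_eq_mul_inv, div_eq_mul_inv,
            ← Real.exp_neg, ← Real.exp_neg]
          have : Real.exp (-(Real.log n * s)) ≤ Real.exp (-10) * Real.exp (-(Real.log n * s2)) := by
            rw [← Real.exp_add]
            apply Real.exp_le_exp.mpr
            have e1 : 10 ≤ Real.log n * (1 / (12 * l)) := by
              rw [mul_one_div, le_div_iff₀ (by positivity)]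
              linarith
            have e2 : Real.log n * (1 / (6 * l)) = 2 * (Real.log n * (1 / (12 * l))) := by
              field_simp
              ring
            rw [hs, hs2]
            linarith
          calc f n * Real.exp (-(Real.log n * s)) ≤
              f n * (Real.exp (-10) * Real.exp (-(Real.log n * s2))) :=
                mul_le_mul_of_nonneg_left this (hf0 n)
            _ = _ := by ring
        linarith
  -- sum the inequality
  have hsum := summable_residueClass (q := q) 1 hsI.1
  have hsum1 := summable_residueClass (q := q) 1 hs1I.1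
  have hsum2 := summable_residueClass (q := q) 1 hs2I.1
  have hfin : Summable fun n : ℕ => (if n ∈ S then f n / n else 0) :=
    summable_of_ne_finset_zero (s := S) (fun n hn => if_neg hn)
  have htsum : ∑' n : ℕ, (if n ∈ S then f n / n else 0) = ∑ n ∈ S, f n / n := by
    rw [tsum_eq_sum (s := S) (fun n hn => if_neg hn)]
    exact Finset.sum_congr rfl fun n hn => if_pos hn
  have hD : ∑' n : ℕ, f n / (n : ℝ) ^ s ≤ Real.exp 1 * ∑' n : ℕ, (f n / (n : ℝ) ^ s1) +
      Real.exp (-10) * ∑' n : ℕ, (f n / (n : ℝ) ^ s2) + ∑ n ∈ S, f n / n := by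
    rw [← htsum, ← tsum_mul_left, ← tsum_mul_left,
      ← (hsum1.mul_left _).tsum_add (hsum2.mul_left _),
      ← ((hsum1.mul_left _).add (hsum2.mul_left _)).tsum_add hfin]
    exact hsum.tsum_le_tsum hpt (((hsum1.mul_left _).add (hsum2.mul_left _)).add hfin)
  have b0 := (abs_le.mp (hM s hsI)).1
  have b1 := (abs_le.mp (hM s1 hs1I)).2
  have b2 := (abs_le.mp (hM s2 hs2I)).2
  have c0 : φ⁻¹ / (s - 1) = 6 * (l / φ) := by
    rw [hs]; field_simp; ring
  have c1 : φ⁻¹ / (s1 - 1) = l / φ := by
    rw [hs1]; field_simp; ring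
  have c2 : φ⁻¹ / (s2 - 1) = 12 * (l / φ) := by
    rw [hs2]; field_simp; ring
  rw [c0] at b0
  rw [c1] at b1
  rw [c2] at b2
  have hlφ : 0 < l / φ := by positivity
  have he1 : Real.exp 1 < 2.72 := by
    have := Real.exp_one_lt_d9
    linarith
  have he10 : Real.exp (-10) ≤ 1 / 11 := by
    rw [Real.exp_neg, inv_eq_one_div]
    apply one_div_le_one_div_of_le (by norm_num)
    have := Real.add_one_le_exp (10 : ℝ)
    linarith
  have hbig : 2 * (l / φ) - 4 * M ≤ ∑ n ∈ S, f n / n := by
    have d1 : Real.exp 1 * ∑' n : ℕ, (f n / (n : ℝ) ^ s1) ≤ 2.72 * (l / φ + M) := by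
      apply mul_le_mul he1.le (by linarith) _ (by norm_num)
      exact tsum_nonneg fun n => div_nonneg (hf0 n) (by positivity)
    have d2 : Real.exp (-10) * ∑' n : ℕ, (f n / (n : ℝ) ^ s2) ≤ 1 / 11 * (12 * (l / φ) + M) := by
      apply mul_le_mul he10 (by linarith) _ (by norm_num)
      exact tsum_nonneg fun n => div_nonneg (hf0 n) (by positivity)
    linarith
  have hsplit : ∑ n ∈ S, f n / n = ∑ n ∈ S, (if n.Prime then f n else 0) / n +
      ∑ n ∈ S, (if n.Prime then 0 else f n) / n := by
    rw [← Finset.sum_add_distrib]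
    apply Finset.sum_congr rfl; intro n _
    split_ifs <;> simp
  have hE1 : ∑ n ∈ S, (if n.Prime then 0 else f n) / n ≤ E := by
    rw [hE]
    apply hsumE.sum_le_tsum
    intro n _
    have := hf0 n
    split_ifs <;> positivity
  have hprime : ∑ n ∈ S, (if n.Prime then f n else 0) / n ≤
      120 * l * ∑ p ∈ S.filter (fun p => p.Prime ∧ p ≡ 1 [MOD q]), (1 : ℝ) / p := by
    rw [Finset.mul_sum, Finset.sum_filter]
    apply Finset.sum_le_sum
    intro n hn
    rw [hS, Finset.mem_Ioc] at hn
    have hn1 : 0 < n := by omega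
    have hn0 : (0 : ℝ) < n := by exact_mod_cast hn1
    by_cases hp : n.Prime
    · by_cases hm : n ≡ 1 [MOD q]
      · rw [if_pos hp, if_pos ⟨hp, hm⟩, div_eq_mul_one_div]
        apply mul_le_mul_of_nonneg_right _ (by positivity)
        have h1 : f n ≤ vonMangoldt n := residueClass_le _ n
        rw [vonMangoldt_apply_prime hp] at h1
        have h2 : (n : ℝ) ≤ x ^ 120 := (Nat.le_floor_iff (by positivity)).mp hn.2
        have h3 := Real.log_le_log hn0 h2
        rw [Real.log_pow] at h3
        push_cast at h3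
        linarith
      · rw [if_pos hp, if_neg (fun h => hm h.2)]
        have : f n = 0 := by
          rw [hf]
          apply Set.indicator_of_notMem
          intro h
          apply hm
          have h' : (n : ZMod q) = ((1 : ℕ) : ZMod q) := by rw [Nat.cast_one]; exact h
          exact (ZMod.natCast_eq_natCast_iff _ _ _).mp h'
        rw [this, zero_div]
    · rw [if_neg hp, if_neg (fun h => hp h.1), zero_div]
  have hfinal : l / φ ≤ 120 * l * ∑ p ∈ S.filter (fun p => p.Prime ∧ p ≡ 1 [MOD q]), (1 : ℝ) / p := by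
    have h5 : 5 * M + E ≤ l / φ := by
      rw [le_div_iff₀ hφ]; linarith
    linarith
  have h6 : 1 / 120 / φ * (120 * l) ≤
      (∑ p ∈ S.filter (fun p => p.Prime ∧ p ≡ 1 [MOD q]), (1 : ℝ) / p) * (120 * l) := by
    have : 1 / 120 / φ * (120 * l) = l / φ := by field_simp
    rw [this]; linarith
  exact le_of_mul_le_mul_right h6 (by positivity)

end Pool.Agent.H62.MR
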