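import Pool.Agent.H62.MR.BlockSum

/-!
# Module [MRF]: deduction of `StatementMR` from `StatementMR0`
-/

set_option autoImplicit false

open Finset Filter MeasureTheory

namespace Pool.Agent.H62.MR

open Pool.Agent.H24.MR

theorem SS_sq_le (W b k z : ℕ) : SS W b k z ^ 2 ≤ (k : ℝ) ^ 2 := by
  rw [← sq_abs]
  exact pow_le_pow_left₀ (abs_nonneg _) (abs_SS_le W b k z) 2

/-- the halving recursion -/
theorem recursion {D : ℕ → ℝ} {K ε : ℝ} {N₁ : ℕ} (hK : 0 ≤ K) (hε : 0 ≤ ε) (hN₁ : 8 ≤ N₁)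
    (htriv : ∀ N, D N ≤ K * N)
    (hrec : ∀ N, N₁ ≤ N → D N ≤ D ((N + 1) / 2) + 3 / 8 * (ε * K) * N) :
    ∀ N, D N ≤ K * N₁ + 7 / 8 * (ε * K) * N := by
  intro N
  induction N using Nat.strong_induction_on with
  | _ N ih =>
    have hεK : 0 ≤ ε * K := mul_nonneg hε hK
    rcases lt_or_ge N N₁ with h | h
    · have h1 : (N : ℝ) ≤ N₁ := by exact_mod_cast h.le
      have h2 := mul_le_mul_of_nonneg_left h1 hK
      have h3 : 0 ≤ 7 / 8 * (ε * K) * N := by positivity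
      linarith [htriv N]
    · have h1 := hrec N h
      have h2 := ih ((N + 1) / 2) (by omega)
      have h3 : (((N + 1) / 2 : ℕ) : ℝ) ≤ ((N : ℝ) + 1) / 2 := by
        have := @Nat.cast_div_le ℝ _ _ _ (N + 1) 2
        push_cast at this
        exact this
      have h4 : (8 : ℝ) ≤ N := by exact_mod_cast hN₁.trans h
      have h5 := mul_le_mul_of_nonneg_left h3 (show 0 ≤ 7 / 8 * (ε * K) by positivity)
      nlinarith

theorem coprime_case (h0 : StatementMR0) (W b : ℕ) {ε : ℝ} (hW : 0 < W) (hb : Nat.Coprime b W)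
    (hε : 0 < ε) : ∃ k₀ : ℕ, ∀ k, k₀ ≤ k → ∃ N₀ : ℕ, ∀ N, N₀ ≤ N →
      ∑ z ∈ Finset.range N, SS W b k z ^ 2 ≤ ε * k ^ 2 * N := by
  have hW0 : (0 : ℝ) < W := by exact_mod_cast hW
  have hW1 : (1 : ℝ) ≤ W := by exact_mod_cast hW
  set ε₁ : ℝ := ε / (1536 * W ^ 2) with hε₁
  have hε₁0 : 0 < ε₁ := by positivity
  set δ : ℝ := Real.sqrt (ε / 8640000) with hδ
  have hδ0 : 0 < δ := Real.sqrt_pos.mpr (by positivity)
  have hδ2 : δ ^ 2 = ε / 8640000 := Real.sq_sqrt (by positivity)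
  obtain ⟨h₀, hh₀⟩ := h0 W b ε₁ hW hb hε₁0
  refine ⟨⌈(max h₀ 1) / δ⌉₊ + 1, fun k hk => ?_⟩
  have hk0 : 0 < k := by omega
  have hk1 : (1 : ℝ) ≤ k := by exact_mod_cast hk0
  set h : ℝ := δ * k with hh
  have hhk : max h₀ 1 ≤ h := by
    have h1 : (max h₀ 1) / δ ≤ k := by
      have := Nat.le_ceil ((max h₀ 1) / δ)
      have h2 : ((⌈(max h₀ 1) / δ⌉₊ : ℕ) : ℝ) ≤ k := by exact_mod_cast (by omega)
      linarith
    rw [div_le_iff₀ hδ0] at h1
    rw [hh]; linarith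
  have hh1 : 1 ≤ h := (le_max_right _ _).trans hhk
  obtain ⟨X₀, hX₀⟩ := hh₀ h ((le_max_left _ _).trans hhk)
  set M : ℝ := max (max (2 * (k * W)) X₀) (6144 * k ^ 2 * W ^ 2 / ε + 1) with hM
  set N₁ : ℕ := max (max 8 b) ⌈2 * M⌉₊ with hN₁
  have hN₁8 : 8 ≤ N₁ := (le_max_left _ _).trans (le_max_left _ _)
  have hrec : ∀ N, N₁ ≤ N → (∑ z ∈ Finset.range N, SS W b k z ^ 2) ≤
      (∑ z ∈ Finset.range ((N + 1) / 2), SS W b k z ^ 2) + 3 / 8 * (ε * k ^ 2) * N := by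
    intro N hN
    have hNb : b ≤ N := ((le_max_right _ _).trans (le_max_left _ _)).trans hN
    have hNM : 2 * M ≤ N := by
      have h1 := Nat.le_ceil (2 * M)
      have h2 : (⌈2 * M⌉₊ : ℝ) ≤ N := by exact_mod_cast (le_max_right _ _).trans hN
      linarith
    have hNb' : (b : ℝ) ≤ N := by exact_mod_cast hNb
    have hN0 : (0 : ℝ) ≤ N := Nat.cast_nonneg N
    set X : ℝ := (W * N + b) / 2 with hX
    have hXM : M ≤ X := by
      have : (N : ℝ) ≤ W * N := by nlinarith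
      have hb0 : (0 : ℝ) ≤ b := Nat.cast_nonneg b
      rw [hX]; linarith
    have hXW : X ≤ W * N := by
      have : (N : ℝ) ≤ W * N := by nlinarith
      rw [hX]; linarith
    have hkX : 2 * (k * W : ℝ) ≤ X := ((le_max_left _ _).trans (le_max_left _ _)).trans hXM
    have hX0X : X₀ ≤ X := ((le_max_right _ _).trans (le_max_left _ _)).trans hXM
    have hX3 : 6144 * k ^ 2 * W ^ 2 / ε + 1 ≤ X := (le_max_right _ _).trans hXM
    have hI := hX₀ X hX0X
    set Z := Finset.Ico ((N + 1) / 2) N with hZdef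
    have hZ : ∀ z ∈ Z, X ≤ W * z + b := by
      intro z hz
      rw [hZdef, Finset.mem_Ico] at hz
      have h1 : N ≤ 2 * z := by omega
      have h2 : (N : ℝ) ≤ 2 * z := by exact_mod_cast h1
      have hb0 : (0 : ℝ) ≤ b := Nat.cast_nonneg b
      rw [hX]
      nlinarith
    have hZ2 : ∀ z ∈ Z, (W * z + b : ℝ) ≤ 2 * X := by
      intro z hz
      rw [hZdef, Finset.mem_Ico] at hz
      have h2 : (z : ℝ) ≤ N := by exact_mod_cast hz.2.le
      rw [hX]
      nlinarith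
    have hblock := block_le hW hkX hk0 hh1 Z hZ hZ2 hI
    have hcard : (Z.card : ℝ) ≤ N := by
      have : Z.card ≤ N := by rw [hZdef, Nat.card_Ico]; omega
      exact_mod_cast this
    have hsplit : ∑ z ∈ Finset.range N, SS W b k z ^ 2 =
        (∑ z ∈ Finset.range ((N + 1) / 2), SS W b k z ^ 2) + ∑ z ∈ Z, SS W b k z ^ 2 := by
      rw [hZdef, Finset.range_eq_Ico, Finset.range_eq_Ico,
        Finset.sum_Ico_consecutive _ (Nat.zero_le _) (by omega)]
    rw [hsplit]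
    have hX1 : 1 ≤ X := by
      have : 0 ≤ 6144 * (k : ℝ) ^ 2 * W ^ 2 / ε := by positivity
      linarith
    -- the three parts
    have p1 : 96 * (k * W) * (k + 1) * ε₁ * X ≤ 1 / 8 * (ε * k ^ 2) * N := by
      have e1 : 96 * (k * W) * (k + 1) * ε₁ * X ≤ 96 * (k * W) * (2 * k) * ε₁ * (W * N) := by
        have : (k : ℝ) + 1 ≤ 2 * k := by linarith
        gcongr
      have e2 : 96 * (k * W) * (2 * k) * ε₁ * (W * N) = 1 / 8 * (ε * k ^ 2) * N := by
        rw [hε₁]; field_simp; ring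
      linarith
    have p2 : 3 * (600 ^ 2 * h ^ 2) ≤ 1 / 8 * (ε * k ^ 2) := by
      rw [hh, mul_pow, hδ2]
      apply le_of_eq
      ring
    have p3 : 3 * (256 * k ^ 4 * W ^ 2 / X ^ 2) ≤ 1 / 8 * (ε * k ^ 2) := by
      have hXX : 6144 * k ^ 2 * W ^ 2 / ε ≤ X ^ 2 := by nlinarith
      rw [div_le_iff₀ hε] at hXX
      have hX2 : 0 < X ^ 2 := by positivity
      rw [← mul_div_assoc, div_le_iff₀ hX2]
      have hk2 : (0 : ℝ) ≤ k ^ 2 := by positivity
      have := mul_le_mul_of_nonneg_left hXX hk2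
      nlinarith
    have p4 : 3 * (600 ^ 2 * h ^ 2 + 256 * k ^ 4 * W ^ 2 / X ^ 2) * Z.card ≤
        1 / 4 * (ε * k ^ 2) * N := by
      have e1 : 3 * (600 ^ 2 * h ^ 2 + 256 * k ^ 4 * W ^ 2 / X ^ 2) ≤ 1 / 4 * (ε * k ^ 2) := by
        linarith
      have e2 : 0 ≤ 1 / 4 * (ε * (k : ℝ) ^ 2) := by positivity
      exact (mul_le_mul_of_nonneg_right e1 (Nat.cast_nonneg _)).trans
        (mul_le_mul_of_nonneg_left hcard e2)
    linarith
  have htriv : ∀ N : ℕ, (∑ z ∈ Finset.range N, SS W b k z ^ 2) ≤ (k : ℝ) ^ 2 * N := by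
    intro N
    refine (Finset.sum_le_sum fun z _ => SS_sq_le W b k z).trans ?_
    rw [Finset.sum_const, Finset.card_range, nsmul_eq_mul, mul_comm]
  have hmain := recursion (D := fun N => ∑ z ∈ Finset.range N, SS W b k z ^ 2)
    (K := (k : ℝ) ^ 2) (ε := ε) (N₁ := N₁) (by positivity) hε.le hN₁8 htriv hrec
  refine ⟨⌈8 * (N₁ : ℝ) / ε⌉₊, fun N hN => ?_⟩
  have h1 := hmain N
  have h2 : 8 * (N₁ : ℝ) / ε ≤ N := by
    have := Nat.le_ceil (8 * (N₁ : ℝ) / ε)
    have h3 : (⌈8 * (N₁ : ℝ) / ε⌉₊ : ℝ) ≤ N := by exact_mod_cast hN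
    linarith
  rw [div_le_iff₀ hε] at h2
  have hk2 : (0 : ℝ) ≤ k ^ 2 := by positivity
  have h3 := mul_le_mul_of_nonneg_left h2 hk2
  linarith

theorem lam_mul {m n : ℕ} (hm : m ≠ 0) (hn : n ≠ 0) : lam (m * n) = lam m * lam n := by
  unfold lam
  rw [ArithmeticFunction.cardFactors_mul hm hn, pow_add]

/-- [MRF] -/
theorem mrf : StatementMRF := by
  intro h0 W b ε hW hε
  set g := Nat.gcd b W with hg
  have hg0 : 0 < g := Nat.gcd_pos_of_pos_right b hW
  obtain ⟨b', hb'⟩ : g ∣ b := Nat.gcd_dvd_left b W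
  obtain ⟨W', hW'⟩ : g ∣ W := Nat.gcd_dvd_right b W
  have hW'0 : 0 < W' := by
    rcases Nat.eq_zero_or_pos W' with h | h
    · rw [h, mul_zero] at hW'; omega
    · exact h
  have hcop : Nat.Coprime b' W' := by
    have h1 := Nat.coprime_div_gcd_div_gcd (m := b) (n := W) (hg ▸ hg0)
    have e1 : b / Nat.gcd b W = b' := by
      rw [← hg]; exact Nat.div_eq_of_eq_mul_right hg0 hb'
    have e2 : W / Nat.gcd b W = W' := by
      rw [← hg]; exact Nat.div_eq_of_eq_mul_right hg0 hW'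
    rwa [e1, e2] at h1
  obtain ⟨k₀, hk₀⟩ := coprime_case h0 W' b' hW'0 hcop (half_pos hε)
  refine ⟨k₀, fun k hk => ?_⟩
  obtain ⟨N₀, hN₀⟩ := hk₀ k hk
  refine ⟨max N₀ ⌈2 / ε⌉₊, fun N hN => ?_⟩
  have h1 := hN₀ N ((le_max_left _ _).trans hN)
  have h2 : 2 / ε ≤ N := by
    have := Nat.le_ceil (2 / ε)
    have h3 : (⌈2 / ε⌉₊ : ℝ) ≤ N := by exact_mod_cast (le_max_right _ _).trans hN
    linarith
  have hz : ∀ z ∈ Finset.range N, (∑ y ∈ Finset.range k, lam (W * (z + y) + b)) ^ 2 ≤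
      SS W' b' k z ^ 2 + (if z = 0 then (k : ℝ) ^ 2 else 0) := by
    intro z _
    by_cases hz0 : z = 0
    · rw [if_pos hz0]
      have e1 : (∑ y ∈ Finset.range k, lam (W * (z + y) + b)) ^ 2 ≤ (k : ℝ) ^ 2 :=
        SS_sq_le W b k z
      have := sq_nonneg (SS W' b' k z)
      linarith
    · rw [if_neg hz0, add_zero]
      have e1 : ∑ y ∈ Finset.range k, lam (W * (z + y) + b) = lam g * SS W' b' k z := by
        unfold SS
        rw [Finset.mul_sum]
        refine Finset.sum_congr rfl fun y _ => ?_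
        have e2 : W * (z + y) + b = g * (W' * (z + y) + b') := by
          conv_lhs => rw [hW', hb']
          ring
        rw [e2, lam_mul hg0.ne']
        have : 0 < W' * (z + y) := Nat.mul_pos hW'0 (by omega)
        omega
      rw [e1, mul_pow, ← sq_abs (lam g), abs_lam, one_pow, one_mul]
  refine (Finset.sum_le_sum hz).trans ?_
  rw [Finset.sum_add_distrib]
  have h3 : ∑ z ∈ Finset.range N, (if z = 0 then (k : ℝ) ^ 2 else 0) ≤ (k : ℝ) ^ 2 := by
    rw [Finset.sum_ite_eq']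
    split_ifs
    · exact le_rfl
    · positivity
  have h4 : (k : ℝ) ^ 2 ≤ ε / 2 * k ^ 2 * N := by
    rw [div_le_iff₀ hε] at h2
    have hk2 : (0 : ℝ) ≤ k ^ 2 := by positivity
    nlinarith
  linarith

end Pool.Agent.H62.MR
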