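import Pool.Agent.H62.MR.Window

/-!
# Module [MRF], part C: one dyadic block
-/

set_option autoImplicit false

open Finset Filter MeasureTheory

namespace Pool.Agent.H62.MR

open Pool.Agent.H24.MR

/-- the coefficients of `FX` -/
noncomputable def gX (W b : ℕ) (X : ℝ) (n : ℕ) : ℝ :=
  fW W b n / n * tent (Real.log n - Real.log X)

theorem FX_eq (W b : ℕ) (X t : ℝ) : FX W b X t =
    ∑ n ∈ Finset.Icc 1 ⌊X * Real.exp 1⌋₊, ((gX W b X n : ℝ) : ℂ) * nit n t := rfl

/-- short sums of `lam` -/
noncomputable def SS (W b k z : ℕ) : ℝ := ∑ j ∈ Finset.range k, lam (W * (z + j) + b)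

theorem abs_lam (n : ℕ) : |lam n| = 1 := by
  unfold lam
  rw [abs_pow, abs_neg, abs_one, one_pow]

theorem abs_SS_le (W b k z : ℕ) : |SS W b k z| ≤ k := by
  unfold SS
  refine (Finset.abs_sum_le_sum_abs _ _).trans ?_
  simp_rw [abs_lam]
  simp

theorem abs_fW_le (W b n : ℕ) : |fW W b n| ≤ 1 := by
  unfold fW
  split_ifs
  · rw [abs_lam]
  · simp

theorem tent_nonneg (u : ℝ) : 0 ≤ tent u := le_max_left _ _

theorem tent_le_one (u : ℝ) : tent u ≤ 1 := by
  unfold tent
  exact max_le zero_le_one (by have := abs_nonneg u; linarith)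

theorem tent_lip (u v : ℝ) : |tent u - tent v| ≤ |u - v| := by
  unfold tent
  refine (abs_max_sub_max_le_max _ _ _ _).trans ?_
  rw [sub_self, abs_zero]
  refine max_le (abs_nonneg _) ?_
  have : (1 - |u|) - (1 - |v|) = |v| - |u| := by ring
  rw [this]
  refine (abs_abs_sub_abs_le_abs_sub v u).trans ?_
  rw [abs_sub_comm]

/-- `|log a - log b| ≥ |a-b|/M` for `a, b ≤ M` -/
theorem abs_log_sub_ge {a b M : ℝ} (ha : 0 < a) (hb : 0 < b) (haM : a ≤ M) (hbM : b ≤ M) :
    |a - b| / M ≤ |Real.log a - Real.log b| := by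
  have hM : 0 < M := ha.trans_le haM
  have key : ∀ {a b : ℝ}, 0 < a → 0 < b → a ≤ M → b ≤ a → (a - b) / M ≤ Real.log a - Real.log b := by
    intro a b ha hb haM hba
    have h1 : Real.log a - Real.log b = Real.log (a / b) := (Real.log_div ha.ne' hb.ne').symm
    rw [h1]
    have h2 := Real.one_sub_inv_le_log_of_pos (div_pos ha hb)
    rw [inv_div] at h2
    refine le_trans ?_ h2
    have h3 : 1 - b / a = (a - b) / a := by field_simp
    rw [h3]
    exact div_le_div_of_nonneg_left (by linarith) ha haM
  rcases le_total b a with h | h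
  · rw [abs_of_nonneg (by linarith)]
    exact (key ha hb haM h).trans (le_abs_self _)
  · rw [abs_sub_comm a b, abs_of_nonneg (by linarith), abs_sub_comm]
    exact (key hb ha hbM h).trans (le_abs_self _)

theorem abs_log_sub_le {a b X : ℝ} (hX : 0 < X) (ha : X ≤ a) (hb : X ≤ b) :
    |Real.log a - Real.log b| ≤ |a - b| / X := by
  have key : ∀ {a b : ℝ}, X ≤ a → X ≤ b → b ≤ a → Real.log a - Real.log b ≤ (a - b) / X := by
    intro a b ha hb hba
    have ha0 : 0 < a := hX.trans_le ha
    have hb0 : 0 < b := hX.trans_le hb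
    have h1 : Real.log a - Real.log b = Real.log (a / b) := (Real.log_div ha0.ne' hb0.ne').symm
    rw [h1]
    have h2 := Real.log_le_sub_one_of_pos (div_pos ha0 hb0)
    refine h2.trans ?_
    have h3 : a / b - 1 = (a - b) / b := by field_simp
    rw [h3]
    exact div_le_div_of_nonneg_left (by linarith) hX hb
  rcases le_total b a with h | h
  · rw [abs_of_nonneg (sub_nonneg.mpr (Real.log_le_log (hX.trans_le hb) h)),
      abs_of_nonneg (by linarith)]
    exact key ha hb h
  · rw [abs_sub_comm, abs_of_nonneg (sub_nonneg.mpr (Real.log_le_log (hX.trans_le ha) h)),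
      abs_sub_comm, abs_of_nonneg (by linarith)]
    exact key hb ha h

theorem abs_gX_le (W b : ℕ) {X : ℝ} (hX : 0 < X) {n : ℕ} (hn : 1 ≤ n) :
    |gX W b X n| ≤ Real.exp 1 / X := by
  have hn0 : (0 : ℝ) < n := by exact_mod_cast hn
  unfold gX
  by_cases ht : tent (Real.log n - Real.log X) = 0
  · rw [ht, mul_zero, abs_zero]; positivity
  · have h1 : -1 < Real.log n - Real.log X := by
      by_contra hcon
      push Not at hcon
      apply ht
      unfold tent
      apply max_eq_left
      have := neg_abs_le (Real.log n - Real.log X)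
      linarith
    have h2 : X / Real.exp 1 < n := by
      have h3 : Real.log X - 1 < Real.log n := by linarith
      have h4 := Real.exp_lt_exp.mpr h3
      rw [Real.exp_log hn0, Real.exp_sub, Real.exp_log hX] at h4
      exact h4
    rw [abs_mul, abs_div, abs_of_pos hn0, abs_of_nonneg (tent_nonneg _)]
    have h5 : |fW W b n| / n ≤ Real.exp 1 / X := by
      have h6 : |fW W b n| / n ≤ 1 / n := div_le_div_of_nonneg_right (abs_fW_le W b n) hn0.le
      refine h6.trans ?_
      rw [div_le_div_iff₀ hn0 hX, one_mul]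
      rw [div_lt_iff₀ (Real.exp_pos 1)] at h2
      linarith
    calc |fW W b n| / n * tent (Real.log n - Real.log X) ≤ |fW W b n| / n * 1 :=
          mul_le_mul_of_nonneg_left (tent_le_one _) (by positivity)
      _ = |fW W b n| / n := mul_one _
      _ ≤ _ := h5

theorem exp_one_lt_three : Real.exp 1 < 3 := by
  have := Real.exp_one_lt_d9
  linarith

theorem sum_gX_exp_le (W b : ℕ) {X h y : ℝ} (hX : 0 < X) (hh : 1 ≤ h) (hy0 : 0 < y)
    (hy : y ≤ 3 * X) :
    ∑ n ∈ Finset.Icc 1 ⌊X * Real.exp 1⌋₊, |gX W b X n| *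
      Real.exp (-(X / h * |Real.log n - Real.log y|)) ≤ 12 * Real.exp 1 * h / X := by
  have hh0 : 0 < h := by linarith
  have h1 : ∀ n ∈ Finset.Icc 1 ⌊X * Real.exp 1⌋₊, |gX W b X n| *
      Real.exp (-(X / h * |Real.log n - Real.log y|)) ≤
      Real.exp 1 / X * Real.exp (-(1 / (3 * h) * |(n : ℝ) - y|)) := by
    intro n hn
    rw [Finset.mem_Icc] at hn
    have hn0 : (0 : ℝ) < n := by exact_mod_cast hn.1
    have hnX : (n : ℝ) ≤ 3 * X := by
      have := (Nat.le_floor_iff (by positivity)).mp hn.2
      have h3 := exp_one_lt_three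
      nlinarith
    apply mul_le_mul (abs_gX_le W b hX hn.1) _ (Real.exp_pos _).le (by positivity)
    apply Real.exp_le_exp.mpr
    have h2 := abs_log_sub_ge hn0 hy0 hnX hy
    have h3 := mul_le_mul_of_nonneg_left h2 (show 0 ≤ X / h by positivity)
    have h4 : X / h * (|(n : ℝ) - y| / (3 * X)) = 1 / (3 * h) * |(n : ℝ) - y| := by
      field_simp
    linarith
  refine (Finset.sum_le_sum h1).trans ?_
  rw [← Finset.mul_sum]
  have h2 := sum_exp_le (c := 1 / (3 * h)) (by positivity)
    (by rw [div_le_one (by positivity)]; linarith) (Finset.Icc 1 ⌊X * Real.exp 1⌋₊) y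
  calc Real.exp 1 / X * ∑ n ∈ Finset.Icc 1 ⌊X * Real.exp 1⌋₊,
        Real.exp (-(1 / (3 * h) * |(n : ℝ) - y|)) ≤ Real.exp 1 / X * (4 / (1 / (3 * h))) :=
        mul_le_mul_of_nonneg_left h2 (by positivity)
    _ = 12 * Real.exp 1 * h / X := by field_simp; ring

/-- the terms in a window -/
theorem window_filter {W b k z : ℕ} {X : ℝ} (hW : 0 < W) (hkX : 2 * (k * W : ℝ) ≤ X)
    (hk : 0 < k) (hz1 : X ≤ W * z + b) (hz2 : (W * z + b : ℝ) ≤ 2 * X) :
    ∑ n ∈ (Finset.Icc 1 ⌊X * Real.exp 1⌋₊).filter
      (fun n : ℕ => Real.log ((W * z + b : ℝ) - W / 2) < Real.log n ∧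
        Real.log n ≤ Real.log ((W * z + b : ℝ) - W / 2 + k * W)), gX W b X n =
      ∑ j ∈ Finset.range k, gX W b X (W * (z + j) + b) := by
  have hW0 : (0 : ℝ) < W := by exact_mod_cast hW
  have hk1 : (1 : ℝ) ≤ k := by exact_mod_cast hk
  have hkW : (W : ℝ) ≤ k * W := by nlinarith
  have hX0 : 0 < X := by nlinarith
  have hy0 : (0 : ℝ) < (W * z + b : ℝ) - W / 2 := by linarith
  rw [← Finset.sum_image (s := Finset.range k) (g := fun j => W * (z + j) + b)
    (f := fun n => gX W b X n)]
  · symm
    apply Finset.sum_subset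
    · intro n hn
      rw [Finset.mem_image] at hn
      obtain ⟨j, hj, rfl⟩ := hn
      rw [Finset.mem_range] at hj
      have hj' : (j : ℝ) + 1 ≤ k := by exact_mod_cast hj
      have hnr : ((W * (z + j) + b : ℕ) : ℝ) = (W * z + b : ℝ) + W * j := by push_cast; ring
      have hj0 : (0 : ℝ) ≤ W * j := by positivity
      have hjk : (W : ℝ) * j + W ≤ k * W := by nlinarith
      rw [Finset.mem_filter, Finset.mem_Icc]
      refine ⟨⟨?_, ?_⟩, ?_, ?_⟩
      · have : (0 : ℝ) < ((W * (z + j) + b : ℕ) : ℝ) := by rw [hnr]; linarith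
        exact_mod_cast this
      · apply Nat.le_floor
        rw [hnr]
        have := Real.exp_one_gt_d9
        nlinarith
      · apply Real.log_lt_log hy0
        rw [hnr]; linarith
      · apply Real.log_le_log
        · rw [hnr]; linarith
        · rw [hnr]; linarith
    · intro n hn hn'
      rw [Finset.mem_filter, Finset.mem_Icc] at hn
      obtain ⟨⟨hn1, hn2⟩, hn3, hn4⟩ := hn
      have hn0 : (0 : ℝ) < n := by exact_mod_cast hn1
      have h3 : (W * z + b : ℝ) - W / 2 < n := (Real.log_lt_log_iff hy0 hn0).mp hn3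
      have h4 : (n : ℝ) ≤ (W * z + b : ℝ) - W / 2 + k * W :=
        (Real.log_le_log_iff hn0 (by positivity)).mp hn4
      unfold gX fW
      rw [if_neg]
      · simp
      · intro hmod
        apply hn'
        rw [Finset.mem_image]
        -- n = W z + b + W j
        have hmod' : W * z + b ≡ n [MOD W] := by
          have h5 : W * z + b ≡ b [MOD W] := by
            have : W * z + b ≡ 0 + b [MOD W] :=
              Nat.ModEq.add_right b ((Nat.modEq_zero_iff_dvd).mpr (dvd_mul_right W z))
            simp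
          exact h5.trans hmod.symm
        have hge : W * z + b ≤ n := by
          by_contra hcon
          push Not at hcon
          have hdvd : W ∣ (W * z + b) - n := (Nat.modEq_iff_dvd' hcon.le).mp hmod'.symm
          have hle : W ≤ (W * z + b) - n := Nat.le_of_dvd (by omega) hdvd
          have : n + W ≤ W * z + b := by omega
          have : (n : ℝ) + W ≤ W * z + b := by exact_mod_cast this
          linarith
        obtain ⟨j, hj⟩ := (Nat.modEq_iff_dvd' hge).mp hmod'
        refine ⟨j, ?_, ?_⟩
        · rw [Finset.mem_range]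
          have h6 : n = W * z + b + W * j := by omega
          rw [h6] at h4
          push_cast at h4
          have h7 : (W : ℝ) * j < k * W := by linarith
          have h8 : (j : ℝ) < k := by nlinarith
          exact_mod_cast h8
        · have : n = W * z + b + W * j := by omega
          rw [this]; ring
  · intro a _ c _ hac
    simp only at hac
    have : W * (z + a) = W * (z + c) := by omega
    have := Nat.eq_of_mul_eq_mul_left hW this
    omega

/-- window end points -/
noncomputable def al (W b z : ℕ) : ℝ := Real.log ((W * z + b : ℝ) - W / 2)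

noncomputable def be (W b k z : ℕ) : ℝ := Real.log ((W * z + b : ℝ) - W / 2 + k * W)

/-- the integral of the Gaussian sums over the window -/
noncomputable def JJ (W b k z : ℕ) (X T : ℝ) : ℝ :=
  ∫ v in (al W b z)..(be W b k z), AA (Finset.Icc 1 ⌊X * Real.exp 1⌋₊) (gX W b X) T v

theorem al_le_be {W b k z : ℕ} {X : ℝ} (hW : 0 < W) (hkX : 2 * (k * W : ℝ) ≤ X)
    (hk : 0 < k) (hz1 : X ≤ W * z + b) : al W b z ≤ be W b k z := by
  have hW0 : (0 : ℝ) < W := by exact_mod_cast hW
  have hk1 : (1 : ℝ) ≤ k := by exact_mod_cast hk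
  have hkW : (W : ℝ) ≤ k * W := by nlinarith
  apply Real.log_le_log
  · linarith
  · linarith

theorem be_sub_al_le {W b k z : ℕ} {X : ℝ} (hW : 0 < W) (hkX : 2 * (k * W : ℝ) ≤ X)
    (hk : 0 < k) (hz1 : X ≤ W * z + b) : be W b k z - al W b z ≤ 2 * (k * W) / X := by
  have hW0 : (0 : ℝ) < W := by exact_mod_cast hW
  have hk1 : (1 : ℝ) ≤ k := by exact_mod_cast hk
  have hkW : (W : ℝ) ≤ k * W := by nlinarith
  have hX0 : 0 < X := by nlinarith
  have h := abs_log_sub_le (X := X / 2) (a := (W * z + b : ℝ) - W / 2 + k * W)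
    (b := (W * z + b : ℝ) - W / 2) (by positivity) (by linarith) (by linarith)
  have h2 := (le_abs_self _).trans h
  unfold be al
  refine h2.trans (le_of_eq ?_)
  rw [add_sub_cancel_left, abs_of_nonneg (by positivity)]
  field_simp

/-- main pointwise bound -/
theorem SS_le {W b k z : ℕ} {X h : ℝ} (hW : 0 < W) (hkX : 2 * (k * W : ℝ) ≤ X)
    (hk : 0 < k) (hh : 1 ≤ h) (hz1 : X ≤ W * z + b) (hz2 : (W * z + b : ℝ) ≤ 2 * X) :
    |SS W b k z| ≤ 4 * X * (X / h) * |JJ W b k z X (X / h)| + 600 * h + 16 * k ^ 2 * W / X := by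
  have hW0 : (0 : ℝ) < W := by exact_mod_cast hW
  have hk1 : (1 : ℝ) ≤ k := by exact_mod_cast hk
  have hkW : (W : ℝ) ≤ k * W := by nlinarith
  have hX0 : 0 < X := by nlinarith
  have hh0 : 0 < h := by linarith
  have hT : 0 < X / h := by positivity
  set T : ℝ := X / h with hTdef
  set y : ℝ := (W * z + b : ℝ) - W / 2 with hy
  have hy0 : 0 < y := by rw [hy]; linarith
  have hy3 : y ≤ 3 * X := by rw [hy]; linarith
  have hyk0 : 0 < y + k * W := by positivity
  have hyk3 : y + k * W ≤ 3 * X := by rw [hy]; linarith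
  -- window lemma
  have hwin := window_sum hT (Finset.Icc 1 ⌊X * Real.exp 1⌋₊) (gX W b X)
    (al_le_be hW hkX hk hz1)
  have hJ : (∫ v in (al W b z)..(be W b k z),
      AA (Finset.Icc 1 ⌊X * Real.exp 1⌋₊) (gX W b X) T v) = JJ W b k z X T := rfl
  have hfil := window_filter hW hkX hk hz1 hz2
  have ha : al W b z = Real.log y := rfl
  have hb : be W b k z = Real.log (y + k * W) := rfl
  rw [hJ, ha, hb] at hwin
  rw [← hy] at hfil
  rw [hfil] at hwin
  set Sg : ℝ := ∑ j ∈ Finset.range k, gX W b X (W * (z + j) + b) with hSg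
  have hs1 := sum_gX_exp_le W b hX0 hh hy0 hy3
  have hs2 := sum_gX_exp_le W b hX0 hh hyk0 hyk3
  rw [← hTdef] at hs1 hs2
  have he1 : Real.exp 1 ≤ 2.72 := by
    have := Real.exp_one_lt_d9; linarith
  have he2 : Real.exp (1 / 2) ≤ 2 := by
    have h1 : Real.exp (1 / 2) ^ 2 = Real.exp 1 := by
      rw [← Real.exp_nat_mul]; norm_num
    nlinarith [Real.exp_pos (1 / 2 : ℝ)]
  have herr : |JJ W b k z X T - m0 T * Sg| ≤ 2 / T * (66 * h / X) := by
    refine hwin.trans ?_
    have h1 : Real.exp (1 / 2) / T ≤ 2 / T := div_le_div_of_nonneg_right he2 hT.le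
    have h2 : 12 * Real.exp 1 * h / X ≤ 33 * h / X := by
      apply div_le_div_of_nonneg_right _ hX0.le
      nlinarith
    apply mul_le_mul h1 _ _ (by positivity)
    · have : 66 * h / X = 33 * h / X + 33 * h / X := by ring
      linarith
    · have e1 : 0 ≤ ∑ n ∈ Finset.Icc 1 ⌊X * Real.exp 1⌋₊, |gX W b X n| *
          Real.exp (-(T * |Real.log n - Real.log y|)) :=
        Finset.sum_nonneg fun n _ => by positivity
      have e2 : 0 ≤ ∑ n ∈ Finset.Icc 1 ⌊X * Real.exp 1⌋₊, |gX W b X n| *
          Real.exp (-(T * |Real.log n - Real.log (y + k * W)|)) :=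
        Finset.sum_nonneg fun n _ => by positivity
      linarith
  -- bound for Sg
  have hm := m0_ge hT
  have hSgle : |Sg| ≤ T / 2 * |JJ W b k z X T| + 66 * h / X := by
    have h1 : m0 T * |Sg| ≤ |JJ W b k z X T| + 2 / T * (66 * h / X) := by
      have h2 : m0 T * |Sg| = |m0 T * Sg| := by
        rw [abs_mul, abs_of_nonneg (le_trans (by positivity) hm)]
      rw [h2]
      have h3 : m0 T * Sg = JJ W b k z X T - (JJ W b k z X T - m0 T * Sg) := by ring
      rw [h3]
      exact (abs_sub _ _).trans (by linarith)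
    have h4 : 2 / T * |Sg| ≤ |JJ W b k z X T| + 2 / T * (66 * h / X) :=
      (mul_le_mul_of_nonneg_right hm (abs_nonneg _)).trans h1
    have h5 := mul_le_mul_of_nonneg_left h4 (show 0 ≤ T / 2 by positivity)
    have h6 : T / 2 * (2 / T * |Sg|) = |Sg| := by field_simp
    have h7 : T / 2 * (|JJ W b k z X T| + 2 / T * (66 * h / X)) =
        T / 2 * |JJ W b k z X T| + 66 * h / X := by field_simp
    linarith
  -- comparison with SS
  set w : ℝ → ℝ := fun x => tent (Real.log x - Real.log X) / x with hw
  have hg : ∀ j ∈ Finset.range k, gX W b X (W * (z + j) + b) =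
      lam (W * (z + j) + b) * w ((W * (z + j) + b : ℕ) : ℝ) := by
    intro j _
    unfold gX fW
    have : W * (z + j) + b ≡ b [MOD W] := by
      have : W * (z + j) + b ≡ 0 + b [MOD W] :=
        Nat.ModEq.add_right b ((Nat.modEq_zero_iff_dvd).mpr (dvd_mul_right W (z + j)))
      simpa only [zero_add] using this
    rw [if_pos this, hw]
    ring
  have hdiff : |Sg - w (W * z + b) * SS W b k z| ≤ k * (2 * (k * W) / X ^ 2) := by
    have e1 : Sg - w (W * z + b) * SS W b k z = ∑ j ∈ Finset.range k,
        lam (W * (z + j) + b) * (w ((W * (z + j) + b : ℕ) : ℝ) - w (W * z + b)) := by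
      rw [hSg, Finset.sum_congr rfl hg, SS, Finset.mul_sum, ← Finset.sum_sub_distrib]
      refine Finset.sum_congr rfl fun j _ => ?_
      ring
    rw [e1]
    refine (Finset.abs_sum_le_sum_abs _ _).trans ?_
    have e2 : ∀ j ∈ Finset.range k, |lam (W * (z + j) + b) *
        (w ((W * (z + j) + b : ℕ) : ℝ) - w (W * z + b))| ≤ 2 * (k * W) / X ^ 2 := by
      intro j hj
      rw [Finset.mem_range] at hj
      have hj' : (j : ℝ) ≤ k := by exact_mod_cast hj.le
      rw [abs_mul, abs_lam, one_mul]
      set a : ℝ := ((W * (z + j) + b : ℕ) : ℝ) with ha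
      set c : ℝ := (W * z + b : ℝ) with hc
      have hac : a = c + W * j := by rw [ha, hc]; push_cast; ring
      have hWj0 : (0 : ℝ) ≤ W * j := by positivity
      have haX : X ≤ a := by rw [hac]; linarith
      have ha0 : 0 < a := hX0.trans_le haX
      have hc0 : 0 < c := hX0.trans_le hz1
      have hack : |a - c| ≤ k * W := by
        rw [hac, add_sub_cancel_left, abs_of_nonneg hWj0]
        nlinarith
      have e3 : w a - w c = (tent (Real.log a - Real.log X) - tent (Real.log c - Real.log X)) / a +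
          tent (Real.log c - Real.log X) * (1 / a - 1 / c) := by
        rw [hw]; simp only; field_simp; ring
      rw [e3]
      refine (abs_add_le _ _).trans ?_
      have e4 : |(tent (Real.log a - Real.log X) - tent (Real.log c - Real.log X)) / a| ≤
          k * W / X ^ 2 := by
        rw [abs_div, abs_of_pos ha0]
        have e5 := tent_lip (Real.log a - Real.log X) (Real.log c - Real.log X)
        have e6 : |(Real.log a - Real.log X) - (Real.log c - Real.log X)| ≤ k * W / X := by
          rw [sub_sub_sub_cancel_right]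
          refine (abs_log_sub_le hX0 haX hz1).trans ?_
          exact div_le_div_of_nonneg_right hack hX0.le
        calc |tent (Real.log a - Real.log X) - tent (Real.log c - Real.log X)| / a ≤
              (k * W / X) / X := div_le_div₀ (by positivity) (e5.trans e6) hX0 haX
          _ = k * W / X ^ 2 := by field_simp
      have e7 : |tent (Real.log c - Real.log X) * (1 / a - 1 / c)| ≤ k * W / X ^ 2 := by
        rw [abs_mul, abs_of_nonneg (tent_nonneg _)]
        have e8 : |1 / a - 1 / c| ≤ k * W / X ^ 2 := by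
          have : 1 / a - 1 / c = (c - a) / (a * c) := by field_simp
          rw [this, abs_div, abs_of_pos (mul_pos ha0 hc0), abs_sub_comm]
          refine div_le_div₀ (by positivity) hack (by positivity) ?_
          rw [sq]
          exact mul_le_mul haX hz1 hX0.le ha0.le
        calc _ ≤ 1 * |1 / a - 1 / c| := mul_le_mul_of_nonneg_right (tent_le_one _) (abs_nonneg _)
          _ = |1 / a - 1 / c| := one_mul _
          _ ≤ _ := e8
      have : 2 * ((k : ℝ) * W) / X ^ 2 = k * W / X ^ 2 + k * W / X ^ 2 := by ring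
      linarith
    refine (Finset.sum_le_sum e2).trans ?_
    rw [Finset.sum_const, Finset.card_range, nsmul_eq_mul]
  have hwlow : 1 / (8 * X) ≤ w (W * z + b) := by
    rw [hw]; simp only
    set c : ℝ := (W * z + b : ℝ) with hc
    have hc0 : 0 < c := hX0.trans_le hz1
    have h1 : 0.3 ≤ tent (Real.log c - Real.log X) := by
      unfold tent
      refine le_trans ?_ (le_max_right _ _)
      have h2 : 0 ≤ Real.log c - Real.log X := sub_nonneg.mpr (Real.log_le_log hX0 hz1)
      rw [abs_of_nonneg h2]
      have h3 : Real.log c ≤ Real.log 2 + Real.log X := by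
        rw [← Real.log_mul (by norm_num) hX0.ne']
        exact Real.log_le_log hc0 hz2
      have h4 := Real.log_two_lt_d9
      linarith
    calc 1 / (8 * X) ≤ 0.3 / (2 * X) := by
          rw [div_le_div_iff₀ (by positivity) (by positivity)]
          nlinarith
      _ ≤ tent (Real.log c - Real.log X) / c :=
          div_le_div₀ (tent_nonneg _) h1 hc0 hz2
  have h8 : 1 / (8 * X) * |SS W b k z| ≤ |Sg| + k * (2 * (k * W) / X ^ 2) := by
    have h9 : w (W * z + b) * |SS W b k z| = |w (W * z + b) * SS W b k z| := by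
      rw [abs_mul, abs_of_nonneg (le_trans (by positivity) hwlow)]
    have h10 : w (W * z + b) * SS W b k z = Sg - (Sg - w (W * z + b) * SS W b k z) := by ring
    have h11 : |w (W * z + b) * SS W b k z| ≤ |Sg| + k * (2 * (k * W) / X ^ 2) := by
      rw [h10]
      exact (abs_sub _ _).trans (by linarith)
    exact (mul_le_mul_of_nonneg_right hwlow (abs_nonneg _)).trans (h9.le.trans h11)
  have h12 := mul_le_mul_of_nonneg_left (h8.trans (add_le_add_left hSgle _))
    (show 0 ≤ 8 * X by positivity)
  have h13 : 8 * X * (1 / (8 * X) * |SS W b k z|) = |SS W b k z| := by field_simp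
  have h14 : 8 * X * (T / 2 * |JJ W b k z X T| + 66 * h / X + k * (2 * (k * W) / X ^ 2)) =
      4 * X * T * |JJ W b k z X T| + 528 * h + 16 * k ^ 2 * W / X := by
    field_simp; ring
  linarith

end Pool.Agent.H62.MR
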