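import Pool.Agent.H62.MR.Block

/-!
# Module [MRF], part D: the sum over a dyadic block
-/

set_option autoImplicit false

open Finset Filter MeasureTheory

namespace Pool.Agent.H62.MR

open Pool.Agent.H24.MR

/-- Cauchy–Schwarz on an interval -/
theorem sq_integral_le {f : ℝ → ℝ} (hf : Continuous f) {α β : ℝ} (hαβ : α ≤ β) :
    (∫ v in α..β, f v) ^ 2 ≤ (β - α) * ∫ v in α..β, f v ^ 2 := by
  rcases hαβ.eq_or_lt with h | h
  · rw [h]; simp
  · have hL : 0 < β - α := by linarith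
    set c : ℝ := (∫ v in α..β, f v) / (β - α) with hc
    have h0 : 0 ≤ ∫ v in α..β, (f v - c) ^ 2 :=
      intervalIntegral.integral_nonneg hαβ fun v _ => sq_nonneg _
    have h1 : ∫ v in α..β, (f v - c) ^ 2 =
        (∫ v in α..β, f v ^ 2) - 2 * c * (∫ v in α..β, f v) + c ^ 2 * (β - α) := by
      have e1 : ∀ v, (f v - c) ^ 2 = f v ^ 2 - 2 * c * f v + c ^ 2 := fun v => by ring
      simp_rw [e1]
      rw [intervalIntegral.integral_add, intervalIntegral.integral_sub,
        intervalIntegral.integral_const_mul, intervalIntegral.integral_const, smul_eq_mul]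
      · ring
      · exact (hf.pow 2).intervalIntegrable _ _
      · exact (continuous_const.mul hf).intervalIntegrable _ _
      · exact ((hf.pow 2).sub (continuous_const.mul hf)).intervalIntegrable _ _
      · exact continuous_const.intervalIntegrable _ _
    rw [h1] at h0
    have h2 : (∫ v in α..β, f v) = c * (β - α) := by rw [hc]; field_simp
    rw [h2] at h0 ⊢
    nlinarith

/-- every point is in few windows -/
theorem count_le {W b k : ℕ} {X : ℝ} (hW : 0 < W) (hkX : 2 * (k * W : ℝ) ≤ X)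
    (hk : 0 < k) (Z : Finset ℕ) (hZ : ∀ z ∈ Z, X ≤ W * z + b) (v : ℝ) :
    (Z.filter (fun z => v ∈ Set.Ioc (al W b z) (be W b k z))).card ≤ k + 1 := by
  have hW0 : (0 : ℝ) < W := by exact_mod_cast hW
  have hk1 : (1 : ℝ) ≤ k := by exact_mod_cast hk
  have hkW : (W : ℝ) ≤ k * W := by nlinarith
  set A := Z.filter (fun z => v ∈ Set.Ioc (al W b z) (be W b k z)) with hA
  rcases A.eq_empty_or_nonempty with h | h
  · rw [h]; simp
  · set m := A.min' h with hm
    have hmA : m ∈ A := A.min'_mem h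
    have hsub : A ⊆ Finset.Icc m (m + k) := by
      intro z hz
      have hmz : m ≤ z := A.min'_le z hz
      rw [Finset.mem_Icc]
      refine ⟨hmz, ?_⟩
      rw [hA, Finset.mem_filter] at hz hmA
      obtain ⟨hz1, hz2⟩ := hz
      obtain ⟨hm1, hm2⟩ := hmA
      have hyz : (0 : ℝ) < (W * z + b : ℝ) - W / 2 := by have := hZ z hz1; linarith
      have hym : (0 : ℝ) < (W * m + b : ℝ) - W / 2 + k * W := by have := hZ m hm1; linarith
      have h1 : (W * z + b : ℝ) - W / 2 < Real.exp v := by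
        have := hz2.1
        unfold al at this
        rwa [Real.log_lt_iff_lt_exp hyz] at this
      have h2 : Real.exp v ≤ (W * m + b : ℝ) - W / 2 + k * W := by
        have := hm2.2
        unfold be at this
        rwa [Real.le_log_iff_exp_le hym] at this
      have h3 : (W : ℝ) * z < W * (m + k) := by linarith
      have h4 : (z : ℝ) < m + k := lt_of_mul_lt_mul_left h3 hW0.le
      have : (z : ℝ) < ((m + k : ℕ) : ℝ) := by push_cast; exact h4
      exact (by exact_mod_cast this : z < m + k).le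
    have := Finset.card_le_card hsub
    rwa [Nat.card_Icc, show m + k + 1 - m = k + 1 by omega] at this

theorem sum_window_integral_le {W b k : ℕ} {X : ℝ} (hW : 0 < W) (hkX : 2 * (k * W : ℝ) ≤ X)
    (hk : 0 < k) (Z : Finset ℕ) (hZ : ∀ z ∈ Z, X ≤ W * z + b) {f : ℝ → ℝ} (hf : Integrable f)
    (hf0 : ∀ v, 0 ≤ f v) :
    ∑ z ∈ Z, ∫ v in (al W b z)..(be W b k z), f v ≤ (k + 1) * ∫ v, f v := by
  have h1 : ∀ z ∈ Z, ∫ v in (al W b z)..(be W b k z), f v =
      ∫ v, (Set.Ioc (al W b z) (be W b k z)).indicator f v := by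
    intro z hz
    rw [intervalIntegral.integral_of_le (al_le_be hW hkX hk (hZ z hz)),
      integral_indicator measurableSet_Ioc]
  rw [Finset.sum_congr rfl h1, ← integral_finsetSum _ fun z _ =>
    hf.indicator measurableSet_Ioc, ← integral_const_mul]
  refine integral_mono (integrable_finsetSum _ fun z _ => hf.indicator measurableSet_Ioc)
    (hf.const_mul _) fun v => ?_
  simp only
  have h2 : ∑ z ∈ Z, (Set.Ioc (al W b z) (be W b k z)).indicator f v =
      ((Z.filter (fun z => v ∈ Set.Ioc (al W b z) (be W b k z))).card : ℝ) * f v := by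
    rw [Finset.card_eq_sum_ones, Nat.cast_sum, Finset.sum_filter, Finset.sum_mul]
    refine Finset.sum_congr rfl fun z _ => ?_
    by_cases hv : v ∈ Set.Ioc (al W b z) (be W b k z)
    · rw [Set.indicator_of_mem hv, if_pos hv]; simp
    · rw [Set.indicator_of_notMem hv, if_neg hv]; simp
  rw [h2]
  apply mul_le_mul_of_nonneg_right _ (hf0 v)
  have := count_le hW hkX hk Z hZ v
  exact_mod_cast this

/-- the mean square of `SS` over a block -/
theorem block_le {W b k : ℕ} {X h ε : ℝ} (hW : 0 < W) (hkX : 2 * (k * W : ℝ) ≤ X)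
    (hk : 0 < k) (hh : 1 ≤ h) (Z : Finset ℕ) (hZ : ∀ z ∈ Z, X ≤ W * z + b)
    (hZ2 : ∀ z ∈ Z, (W * z + b : ℝ) ≤ 2 * X)
    (hI : ∫ t : ℝ, ‖FX W b X t‖ ^ 2 * Real.exp (-(t / (X / h)) ^ 2) ≤ ε) :
    ∑ z ∈ Z, SS W b k z ^ 2 ≤ 96 * (k * W) * (k + 1) * ε * X +
      3 * (600 ^ 2 * h ^ 2 + 256 * k ^ 4 * W ^ 2 / X ^ 2) * Z.card := by
  have hW0 : (0 : ℝ) < W := by exact_mod_cast hW
  have hk1 : (1 : ℝ) ≤ k := by exact_mod_cast hk
  have hkW : (W : ℝ) ≤ k * W := by nlinarith
  have hX0 : 0 < X := by nlinarith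
  have hh0 : 0 < h := by linarith
  have hT : 0 < X / h := by positivity
  set T : ℝ := X / h with hTdef
  set S := Finset.Icc 1 ⌊X * Real.exp 1⌋₊ with hS
  have hA2 : ∫ v, AA S (gX W b X) T v ^ 2 ≤ 1 / T ^ 2 * ε := by
    rw [planch S (gX W b X) hT]
    apply mul_le_mul_of_nonneg_left _ (by positivity)
    exact hI
  have hsq : ∀ z ∈ Z, SS W b k z ^ 2 ≤ 96 * X * T ^ 2 * (k * W) *
      (∫ v in (al W b z)..(be W b k z), AA S (gX W b X) T v ^ 2) +
      3 * (600 ^ 2 * h ^ 2 + 256 * k ^ 4 * W ^ 2 / X ^ 2) := by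
    intro z hz
    have h1 := SS_le hW hkX hk hh (hZ z hz) (hZ2 z hz)
    rw [← hTdef] at h1
    have h2 := sq_integral_le (continuous_AA S (gX W b X) T) (al_le_be hW hkX hk (hZ z hz))
    have hJ : (∫ v in (al W b z)..(be W b k z), AA S (gX W b X) T v) = JJ W b k z X T := rfl
    rw [hJ] at h2
    set Q : ℝ := ∫ v in (al W b z)..(be W b k z), AA S (gX W b X) T v ^ 2 with hQ
    have hQ0 : 0 ≤ Q := intervalIntegral.integral_nonneg (al_le_be hW hkX hk (hZ z hz))
      fun v _ => sq_nonneg _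
    have h3 : JJ W b k z X T ^ 2 ≤ 2 * (k * W) / X * Q :=
      h2.trans (mul_le_mul_of_nonneg_right (be_sub_al_le hW hkX hk (hZ z hz)) hQ0)
    set a : ℝ := 4 * X * T * |JJ W b k z X T| with ha
    set c : ℝ := 600 * h with hc
    set d : ℝ := 16 * k ^ 2 * W / X with hd
    have h4 : SS W b k z ^ 2 ≤ (a + c + d) ^ 2 := by
      rw [← sq_abs (SS W b k z)]
      exact pow_le_pow_left₀ (abs_nonneg _) h1 2
    have h5 : (a + c + d) ^ 2 ≤ 3 * (a ^ 2 + c ^ 2 + d ^ 2) := by
      nlinarith [sq_nonneg (a - c), sq_nonneg (a - d), sq_nonneg (c - d)]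
    have h6 : a ^ 2 ≤ 32 * X * T ^ 2 * (k * W) * Q := by
      have e1 : a ^ 2 = 16 * X ^ 2 * T ^ 2 * JJ W b k z X T ^ 2 := by
        rw [ha, mul_pow, mul_pow, mul_pow, sq_abs]; ring
      have e2 := mul_le_mul_of_nonneg_left h3 (show 0 ≤ 16 * X ^ 2 * T ^ 2 by positivity)
      have e3 : 16 * X ^ 2 * T ^ 2 * (2 * (k * W) / X * Q) = 32 * X * T ^ 2 * (k * W) * Q := by
        field_simp; ring
      linarith
    have h7 : c ^ 2 = 600 ^ 2 * h ^ 2 := by rw [hc]; ring
    have h8 : d ^ 2 = 256 * k ^ 4 * W ^ 2 / X ^ 2 := by rw [hd]; field_simp; ring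
    rw [h7, h8] at h5
    linarith
  refine (Finset.sum_le_sum hsq).trans ?_
  rw [Finset.sum_add_distrib, ← Finset.mul_sum, Finset.sum_const, nsmul_eq_mul]
  have h9 := sum_window_integral_le hW hkX hk Z hZ (integrable_AA_sq S (gX W b X) hT)
    (fun v => sq_nonneg _)
  have h10 : (∑ z ∈ Z, ∫ v in (al W b z)..(be W b k z), AA S (gX W b X) T v ^ 2) ≤
      (k + 1) * (1 / T ^ 2 * ε) := h9.trans (mul_le_mul_of_nonneg_left hA2 (by positivity))
  have h11 := mul_le_mul_of_nonneg_left h10 (show 0 ≤ 96 * X * T ^ 2 * (k * W) by positivity)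
  have h12 : 96 * X * T ^ 2 * (k * W) * ((k + 1) * (1 / T ^ 2 * ε)) =
      96 * (k * W) * (k + 1) * ε * X := by
    field_simp
  linarith

end Pool.Agent.H62.MR
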