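import Pool.Agent.H24.MR.InterfaceMR

/-!
# Module [MRF], part A: the Gaussian Plancherel identity for finite exponential sums
-/

set_option autoImplicit false

open Finset Filter MeasureTheory

namespace Pool.Agent.H62.MR

open Pool.Agent.H24.MR

theorem integral_cos_gauss {T : ℝ} (hT : 0 < T) (c : ℝ) :
    ∫ t : ℝ, Real.cos (t * c) * Real.exp (-(t / T) ^ 2) =
      T * Real.sqrt Real.pi * Real.exp (-(T ^ 2 * c ^ 2 / 4)) := by
  have hb : 0 < ((1 / T ^ 2 : ℝ) : ℂ).re := by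
    rw [Complex.ofReal_re]; positivity
  have h := fourierIntegral_gaussian hb (c : ℂ)
  have e2 : ((Real.pi : ℂ) / ((1 / T ^ 2 : ℝ) : ℂ)) ^ (1 / 2 : ℂ) =
      ((T * Real.sqrt Real.pi : ℝ) : ℂ) := by
    have e3 : (Real.pi : ℂ) / ((1 / T ^ 2 : ℝ) : ℂ) = ((Real.pi * T ^ 2 : ℝ) : ℂ) := by
      push_cast
      field_simp
    rw [e3, show (1 / 2 : ℂ) = ((1 / 2 : ℝ) : ℂ) by push_cast; rfl,
      ← Complex.ofReal_cpow (by positivity), ← Real.sqrt_eq_rpow, Real.sqrt_mul Real.pi_pos.le,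
      Real.sqrt_sq hT.le, mul_comm]
  have e4 : Complex.exp (-(c : ℂ) ^ 2 / (4 * ((1 / T ^ 2 : ℝ) : ℂ))) =
      ((Real.exp (-(T ^ 2 * c ^ 2 / 4)) : ℝ) : ℂ) := by
    have e5 : -(c : ℂ) ^ 2 / (4 * ((1 / T ^ 2 : ℝ) : ℂ)) = ((-(T ^ 2 * c ^ 2 / 4) : ℝ) : ℂ) := by
      push_cast
      have : (T : ℂ) ≠ 0 := by exact_mod_cast hT.ne'
      field_simp
    rw [e5, ← Complex.ofReal_exp]
  rw [e2, e4, ← Complex.ofReal_mul] at h
  have hpt : ∀ t : ℝ, Complex.exp (Complex.I * c * t) *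
        Complex.exp (-((1 / T ^ 2 : ℝ) : ℂ) * (t : ℂ) ^ 2) =
      ((Real.cos (t * c) * Real.exp (-(t / T) ^ 2) : ℝ) : ℂ) +
        ((Real.sin (t * c) * Real.exp (-(t / T) ^ 2) : ℝ) : ℂ) * Complex.I := by
    intro t
    have e6 : Complex.exp (-((1 / T ^ 2 : ℝ) : ℂ) * (t : ℂ) ^ 2) =
        ((Real.exp (-(t / T) ^ 2) : ℝ) : ℂ) := by
      rw [Complex.ofReal_exp]
      congr 1
      push_cast
      field_simp
    have e7 : Complex.exp (Complex.I * c * t) =
        ((Real.cos (t * c) : ℝ) : ℂ) + ((Real.sin (t * c) : ℝ) : ℂ) * Complex.I := by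
      rw [show Complex.I * c * t = ((t * c : ℝ) : ℂ) * Complex.I by push_cast; ring,
        Complex.exp_mul_I, ← Complex.ofReal_cos, ← Complex.ofReal_sin]
    rw [e6, e7]
    push_cast
    ring
  simp_rw [hpt] at h
  have hg : Integrable (fun t : ℝ => Real.exp (-(t / T) ^ 2)) := by
    have := integrable_exp_neg_mul_sq (b := 1 / T ^ 2) (by positivity)
    refine this.congr (Filter.Eventually.of_forall fun t => ?_)
    simp only
    congr 1
    rw [div_pow]; ring
  have hc : Integrable (fun t : ℝ => Real.cos (t * c) * Real.exp (-(t / T) ^ 2)) := by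
    refine hg.mono' (by fun_prop) (Filter.Eventually.of_forall fun t => ?_)
    rw [norm_mul, Real.norm_eq_abs, Real.norm_eq_abs, abs_of_pos (Real.exp_pos _)]
    exact mul_le_of_le_one_left (Real.exp_pos _).le (Real.abs_cos_le_one _)
  have hs : Integrable (fun t : ℝ => Real.sin (t * c) * Real.exp (-(t / T) ^ 2)) := by
    refine hg.mono' (by fun_prop) (Filter.Eventually.of_forall fun t => ?_)
    rw [norm_mul, Real.norm_eq_abs, Real.norm_eq_abs, abs_of_pos (Real.exp_pos _)]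
    exact mul_le_of_le_one_left (Real.exp_pos _).le (Real.abs_sin_le_one _)
  rw [integral_add hc.ofReal (hs.ofReal.mul_const _), integral_mul_const,
    integral_complex_ofReal, integral_complex_ofReal] at h
  have := congrArg Complex.re h
  simp only [Complex.add_re, Complex.ofReal_re, Complex.mul_re, Complex.I_re, mul_zero,
    Complex.ofReal_im, Complex.I_im, mul_one, sub_self, add_zero] at this
  exact this

theorem integrable_gauss_sq {T : ℝ} (hT : 0 < T) (μ : ℝ) :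
    Integrable (fun v : ℝ => Real.exp (-(T ^ 2) * (v - μ) ^ 2)) :=
  (integrable_exp_neg_mul_sq (b := T ^ 2) (by positivity)).comp_sub_right μ

theorem integral_two_gauss {T : ℝ} (hT : 0 < T) (a b : ℝ) :
    ∫ v : ℝ, Real.exp (-(T ^ 2 * (a - v) ^ 2 / 2)) * Real.exp (-(T ^ 2 * (b - v) ^ 2 / 2)) =
      Real.sqrt Real.pi / T * Real.exp (-(T ^ 2 * (a - b) ^ 2 / 4)) := by
  have e1 : ∀ v : ℝ, Real.exp (-(T ^ 2 * (a - v) ^ 2 / 2)) *
      Real.exp (-(T ^ 2 * (b - v) ^ 2 / 2)) =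
      Real.exp (-(T ^ 2 * (a - b) ^ 2 / 4)) * Real.exp (-(T ^ 2) * (v - (a + b) / 2) ^ 2) := by
    intro v
    rw [← Real.exp_add, ← Real.exp_add]
    congr 1
    ring
  simp_rw [e1]
  rw [integral_const_mul,
    integral_sub_right_eq_self (fun v => Real.exp (-(T ^ 2) * v ^ 2)) ((a + b) / 2),
    integral_gaussian, Real.sqrt_div Real.pi_pos.le, Real.sqrt_sq hT.le]
  ring

theorem integrable_two_gauss {T : ℝ} (hT : 0 < T) (a b : ℝ) :
    Integrable (fun v : ℝ => Real.exp (-(T ^ 2 * (a - v) ^ 2 / 2)) *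
      Real.exp (-(T ^ 2 * (b - v) ^ 2 / 2))) := by
  have e1 : ∀ v : ℝ, Real.exp (-(T ^ 2 * (a - v) ^ 2 / 2)) *
      Real.exp (-(T ^ 2 * (b - v) ^ 2 / 2)) =
      Real.exp (-(T ^ 2 * (a - b) ^ 2 / 4)) * Real.exp (-(T ^ 2) * (v - (a + b) / 2) ^ 2) := by
    intro v
    rw [← Real.exp_add, ← Real.exp_add]
    congr 1
    ring
  simp_rw [e1]
  exact (integrable_gauss_sq hT _).const_mul _

theorem norm_sum_nit_sq (S : Finset ℕ) (g : ℕ → ℝ) (t : ℝ) :
    ‖∑ n ∈ S, ((g n : ℝ) : ℂ) * nit n t‖ ^ 2 =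
      ∑ m ∈ S, ∑ n ∈ S, g m * g n * Real.cos (t * (Real.log m - Real.log n)) := by
  have h1 : ∀ n : ℕ, ((g n : ℝ) : ℂ) * nit n t =
      ((g n * Real.cos (t * Real.log n) : ℝ) : ℂ) -
        ((g n * Real.sin (t * Real.log n) : ℝ) : ℂ) * Complex.I := by
    intro n
    unfold nit
    rw [show -((t * Real.log n : ℝ) : ℂ) * Complex.I = ((-(t * Real.log n) : ℝ) : ℂ) * Complex.I by
      push_cast; ring, Complex.exp_mul_I, ← Complex.ofReal_cos, ← Complex.ofReal_sin,
      Real.cos_neg, Real.sin_neg]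
    push_cast
    ring
  simp_rw [h1]
  rw [Finset.sum_sub_distrib, ← Finset.sum_mul, ← Complex.ofReal_sum, ← Complex.ofReal_sum,
    Complex.sq_norm, Complex.normSq_apply]
  simp only [Complex.sub_re, Complex.ofReal_re, Complex.mul_re, Complex.I_re, mul_zero,
    Complex.ofReal_im, Complex.I_im, mul_one, sub_self, sub_zero, Complex.sub_im, Complex.mul_im,
    zero_sub, add_zero]
  rw [neg_mul_neg, Finset.sum_mul_sum, Finset.sum_mul_sum, ← Finset.sum_add_distrib]
  refine Finset.sum_congr rfl fun m _ => ?_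
  rw [← Finset.sum_add_distrib]
  refine Finset.sum_congr rfl fun n _ => ?_
  rw [mul_sub, Real.cos_sub]
  ring

/-- the Gaussian window sums -/
noncomputable def AA (S : Finset ℕ) (g : ℕ → ℝ) (T v : ℝ) : ℝ :=
  ∑ n ∈ S, g n * Real.exp (-(T ^ 2 * (Real.log n - v) ^ 2 / 2))

theorem continuous_AA (S : Finset ℕ) (g : ℕ → ℝ) (T : ℝ) : Continuous (AA S g T) := by
  unfold AA; fun_prop

theorem AA_sq (S : Finset ℕ) (g : ℕ → ℝ) (T v : ℝ) : AA S g T v ^ 2 =
    ∑ m ∈ S, ∑ n ∈ S, g m * g n * (Real.exp (-(T ^ 2 * (Real.log m - v) ^ 2 / 2)) *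
      Real.exp (-(T ^ 2 * (Real.log n - v) ^ 2 / 2))) := by
  unfold AA
  rw [sq, Finset.sum_mul_sum]
  refine Finset.sum_congr rfl fun m _ => Finset.sum_congr rfl fun n _ => ?_
  ring

theorem integrable_AA_sq (S : Finset ℕ) (g : ℕ → ℝ) {T : ℝ} (hT : 0 < T) :
    Integrable (fun v => AA S g T v ^ 2) := by
  simp_rw [AA_sq]
  exact integrable_finsetSum _ fun m _ => integrable_finsetSum _ fun n _ =>
    (integrable_two_gauss hT _ _).const_mul _

/-- the Gaussian Plancherel identity -/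
theorem planch (S : Finset ℕ) (g : ℕ → ℝ) {T : ℝ} (hT : 0 < T) :
    ∫ v : ℝ, AA S g T v ^ 2 =
      1 / T ^ 2 * ∫ t : ℝ, ‖∑ n ∈ S, ((g n : ℝ) : ℂ) * nit n t‖ ^ 2 * Real.exp (-(t / T) ^ 2) := by
  have hg : Integrable (fun t : ℝ => Real.exp (-(t / T) ^ 2)) := by
    have := integrable_exp_neg_mul_sq (b := 1 / T ^ 2) (by positivity)
    refine this.congr (Filter.Eventually.of_forall fun t => ?_)
    simp only
    congr 1
    rw [div_pow]; ring
  have hc : ∀ c : ℝ, Integrable (fun t : ℝ => Real.cos (t * c) * Real.exp (-(t / T) ^ 2)) := by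
    intro c
    refine hg.mono' (by fun_prop) (Filter.Eventually.of_forall fun t => ?_)
    rw [norm_mul, Real.norm_eq_abs, Real.norm_eq_abs, abs_of_pos (Real.exp_pos _)]
    exact mul_le_of_le_one_left (Real.exp_pos _).le (Real.abs_cos_le_one _)
  have lhs : ∫ v : ℝ, AA S g T v ^ 2 = ∑ m ∈ S, ∑ n ∈ S, g m * g n * (Real.sqrt Real.pi / T *
      Real.exp (-(T ^ 2 * (Real.log m - Real.log n) ^ 2 / 4))) := by
    simp_rw [AA_sq]
    rw [integral_finsetSum _ fun m _ => integrable_finsetSum _ fun n _ =>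
      (integrable_two_gauss hT _ _).const_mul _]
    refine Finset.sum_congr rfl fun m _ => ?_
    rw [integral_finsetSum _ fun n _ => (integrable_two_gauss hT _ _).const_mul _]
    refine Finset.sum_congr rfl fun n _ => ?_
    rw [integral_const_mul, integral_two_gauss hT]
  have rhs : ∫ t : ℝ, ‖∑ n ∈ S, ((g n : ℝ) : ℂ) * nit n t‖ ^ 2 * Real.exp (-(t / T) ^ 2) =
      ∑ m ∈ S, ∑ n ∈ S, g m * g n * (T * Real.sqrt Real.pi *
      Real.exp (-(T ^ 2 * (Real.log m - Real.log n) ^ 2 / 4))) := by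
    simp_rw [norm_sum_nit_sq, Finset.sum_mul]
    have e1 : ∀ (m n : ℕ) (t : ℝ), g m * g n * Real.cos (t * (Real.log m - Real.log n)) *
        Real.exp (-(t / T) ^ 2) = g m * g n * (Real.cos (t * (Real.log m - Real.log n)) *
        Real.exp (-(t / T) ^ 2)) := fun m n t => by ring
    simp_rw [e1]
    rw [integral_finsetSum _ fun m _ => integrable_finsetSum _ fun n _ => (hc _).const_mul _]
    refine Finset.sum_congr rfl fun m _ => ?_
    rw [integral_finsetSum _ fun n _ => (hc _).const_mul _]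
    refine Finset.sum_congr rfl fun n _ => ?_
    rw [integral_const_mul, integral_cos_gauss hT]
  rw [lhs, rhs, Finset.mul_sum]
  refine Finset.sum_congr rfl fun m _ => ?_
  rw [Finset.mul_sum]
  refine Finset.sum_congr rfl fun n _ => ?_
  field_simp

end Pool.Agent.H62.MR
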