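import Pool.Agent.H62.MR.Planch

/-!
# Module [MRF], part B: sharp windows from Gaussian windows
-/

set_option autoImplicit false

open Finset Filter MeasureTheory

namespace Pool.Agent.H62.MR

open Pool.Agent.H24.MR

/-- Gaussian bump -/
noncomputable def gb (T c v : ℝ) : ℝ := Real.exp (-(T ^ 2 * (c - v) ^ 2 / 2))

/-- mass of the Gaussian bump -/
noncomputable def m0 (T : ℝ) : ℝ := ∫ v : ℝ, gb T 0 v

theorem gb_pos (T c v : ℝ) : 0 < gb T c v := Real.exp_pos _

theorem continuous_gb (T c : ℝ) : Continuous (gb T c) := by unfold gb; fun_prop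

theorem gb_eq (T c v : ℝ) : gb T c v = gb T 0 (v - c) := by
  unfold gb; congr 1; ring

theorem integrable_gb {T : ℝ} (hT : 0 < T) (c : ℝ) : Integrable (gb T c) := by
  have := (integrable_exp_neg_mul_sq (b := T ^ 2 / 2) (by positivity)).comp_sub_right c
  refine this.congr (Filter.Eventually.of_forall fun v => ?_)
  unfold gb
  simp only
  congr 1; ring

theorem integral_gb (T c : ℝ) : ∫ v : ℝ, gb T c v = m0 T := by
  have : (fun v => gb T c v) = fun v => gb T 0 (v - c) := funext fun v => gb_eq T c v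
  rw [this, integral_sub_right_eq_self (gb T 0) c]
  rfl

theorem m0_eq {T : ℝ} (hT : 0 < T) : m0 T = Real.sqrt (2 * Real.pi) / T := by
  unfold m0
  have : (fun v => gb T 0 v) = fun v => Real.exp (-(T ^ 2 / 2) * v ^ 2) := by
    funext v; unfold gb; congr 1; ring
  rw [this, integral_gaussian]
  rw [show Real.pi / (T ^ 2 / 2) = 2 * Real.pi / T ^ 2 by field_simp,
    Real.sqrt_div (by positivity), Real.sqrt_sq hT.le]

theorem m0_ge {T : ℝ} (hT : 0 < T) : 2 / T ≤ m0 T := by
  rw [m0_eq hT]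
  apply div_le_div_of_nonneg_right _ hT.le
  rw [show (2 : ℝ) = Real.sqrt (2 ^ 2) by rw [Real.sqrt_sq (by norm_num)]]
  apply Real.sqrt_le_sqrt
  have := Real.pi_gt_three
  have h2 : Real.sqrt (2 ^ 2) = 2 := Real.sqrt_sq (by norm_num)
  rw [h2]
  linarith

theorem gb_le_right (T c v : ℝ) : gb T c v ≤ Real.exp (1 / 2) * Real.exp (-(T * (v - c))) := by
  unfold gb
  rw [← Real.exp_add]
  apply Real.exp_le_exp.mpr
  nlinarith [sq_nonneg (T * (v - c) - 1)]

theorem gb_le_left (T c v : ℝ) : gb T c v ≤ Real.exp (1 / 2) * Real.exp (T * (v - c)) := by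
  unfold gb
  rw [← Real.exp_add]
  apply Real.exp_le_exp.mpr
  nlinarith [sq_nonneg (T * (v - c) + 1)]

theorem tail_right {T : ℝ} (hT : 0 < T) (c α : ℝ) :
    ∫ v in Set.Ioi α, gb T c v ≤ Real.exp (1 / 2) / T * Real.exp (-(T * (α - c))) := by
  have hI : IntegrableOn (fun v => Real.exp (-T * v)) (Set.Ioi α) :=
    exp_neg_integrableOn_Ioi α hT
  have h1 : ∫ v in Set.Ioi α, gb T c v ≤
      ∫ v in Set.Ioi α, (Real.exp (1 / 2) * Real.exp (T * c)) * Real.exp (-T * v) := by
    refine setIntegral_mono (integrable_gb hT c).integrableOn (hI.const_mul _) fun v => ?_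
    refine (gb_le_right T c v).trans (le_of_eq ?_)
    rw [show -(T * (v - c)) = T * c + -T * v by ring, Real.exp_add]
    ring
  refine h1.trans (le_of_eq ?_)
  rw [integral_const_mul]
  have h2 : ∫ v in Set.Ioi α, Real.exp (-T * v) = Real.exp (-T * α) / T := by
    rw [integral_exp_mul_Ioi (by linarith) α]
    field_simp
  rw [h2]
  rw [show -(T * (α - c)) = T * c + -T * α by ring, Real.exp_add]
  ring

theorem tail_left {T : ℝ} (hT : 0 < T) (c α : ℝ) :
    ∫ v in Set.Iic α, gb T c v ≤ Real.exp (1 / 2) / T * Real.exp (T * (α - c)) := by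
  have hI : IntegrableOn (fun v => Real.exp (T * v)) (Set.Iic α) :=
    integrableOn_exp_mul_Iic hT α
  have h1 : ∫ v in Set.Iic α, gb T c v ≤
      ∫ v in Set.Iic α, (Real.exp (1 / 2) * Real.exp (-(T * c))) * Real.exp (T * v) := by
    refine setIntegral_mono (integrable_gb hT c).integrableOn (hI.const_mul _) fun v => ?_
    refine (gb_le_left T c v).trans (le_of_eq ?_)
    rw [show T * (v - c) = -(T * c) + T * v by ring, Real.exp_add]
    ring
  refine h1.trans (le_of_eq ?_)
  rw [integral_const_mul, integral_exp_mul_Iic hT α]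
  rw [show T * (α - c) = -(T * c) + T * α by ring, Real.exp_add]
  ring

/-- the cumulative function is a step function up to exponentially small errors -/
theorem cum_step {T : ℝ} (hT : 0 < T) (c α : ℝ) :
    |(∫ v in Set.Iic α, gb T c v) - (if c ≤ α then m0 T else 0)| ≤
      Real.exp (1 / 2) / T * Real.exp (-(T * |c - α|)) := by
  have h0 : (∫ v in Set.Iic α, gb T c v) + ∫ v in Set.Ioi α, gb T c v = m0 T := by
    rw [← integral_gb T c]
    have := integral_add_compl (s := Set.Iic α) (f := gb T c) measurableSet_Iic (integrable_gb hT c)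
    rwa [Set.compl_Iic] at this
  have hl : 0 ≤ ∫ v in Set.Iic α, gb T c v := integral_nonneg fun v => (gb_pos T c v).le
  have hr : 0 ≤ ∫ v in Set.Ioi α, gb T c v := integral_nonneg fun v => (gb_pos T c v).le
  by_cases h : c ≤ α
  · rw [if_pos h]
    have h1 := tail_right hT c α
    rw [show |c - α| = α - c by rw [abs_of_nonpos (by linarith)]; ring]
    rw [abs_le]
    constructor <;> linarith [Real.exp_pos (-(T * (α - c)))]
  · rw [if_neg h, sub_zero, abs_of_nonneg hl]
    push Not at h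
    have h1 := tail_left hT c α
    rw [show |c - α| = c - α by rw [abs_of_nonneg (by linarith)]]
    rw [show -(T * (c - α)) = T * (α - c) by ring]
    exact h1

theorem window_step {T : ℝ} (hT : 0 < T) (c : ℝ) {α β : ℝ} (hαβ : α ≤ β) :
    |(∫ v in α..β, gb T c v) - (if α < c ∧ c ≤ β then m0 T else 0)| ≤
      Real.exp (1 / 2) / T * (Real.exp (-(T * |c - α|)) + Real.exp (-(T * |c - β|))) := by
  have h1 : ∫ v in α..β, gb T c v = (∫ v in Set.Iic β, gb T c v) - ∫ v in Set.Iic α, gb T c v := by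
    rw [intervalIntegral.integral_Iic_sub_Iic (integrable_gb hT c).integrableOn
      (integrable_gb hT c).integrableOn]
  have h2 : (if α < c ∧ c ≤ β then m0 T else 0) =
      (if c ≤ β then m0 T else 0) - (if c ≤ α then m0 T else 0) := by
    by_cases ha : c ≤ α
    · rw [if_neg (by intro h; linarith [h.1]), if_pos (ha.trans hαβ), if_pos ha, sub_self]
    · rw [if_neg ha, sub_zero]
      push Not at ha
      by_cases hb : c ≤ β
      · rw [if_pos ⟨ha, hb⟩, if_pos hb]
      · rw [if_neg (fun h => hb h.2), if_neg hb]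
  rw [h1, h2, mul_add]
  have e1 := cum_step hT c α
  have e2 := cum_step hT c β
  have : (∫ v in Set.Iic β, gb T c v) - (∫ v in Set.Iic α, gb T c v) -
      ((if c ≤ β then m0 T else 0) - (if c ≤ α then m0 T else 0)) =
      ((∫ v in Set.Iic β, gb T c v) - (if c ≤ β then m0 T else 0)) -
      ((∫ v in Set.Iic α, gb T c v) - (if c ≤ α then m0 T else 0)) := by ring
  rw [this]
  refine (abs_sub _ _).trans ?_
  linarith

/-- exponential sums over integers -/
theorem sum_exp_le {c : ℝ} (hc : 0 < c) (hc1 : c ≤ 1) (S : Finset ℕ) (y : ℝ) :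
    ∑ n ∈ S, Real.exp (-(c * |(n : ℝ) - y|)) ≤ 4 / c := by
  set r : ℝ := Real.exp (-c) with hr
  have hr0 : 0 ≤ r := (Real.exp_pos _).le
  have hr1 : r < 1 := by rw [hr, Real.exp_lt_one_iff]; linarith
  have hr2 : 1 - r ≥ c / 2 := by
    have h1 : r ≤ 1 - c + c ^ 2 / 2 := by
      have hq := Real.quadratic_le_exp_of_nonneg hc.le
      have h2 : (1 - c + c ^ 2 / 2) * (1 + c + c ^ 2 / 2) ≥ 1 := by nlinarith [sq_nonneg (c ^ 2)]
      have h3 : 0 < 1 - c + c ^ 2 / 2 := by nlinarith [sq_nonneg (c - 1)]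
      rw [hr, Real.exp_neg, inv_le_comm₀ (Real.exp_pos c) h3]
      have h4 : (1 - c + c ^ 2 / 2)⁻¹ ≤ 1 + c + c ^ 2 / 2 := by
        rw [inv_le_iff_one_le_mul₀ h3]; linarith
      exact h4.trans hq
    nlinarith
  have hgeo : ∀ A : Finset ℕ, ∑ j ∈ A, r ^ j ≤ 2 / c := by
    intro A
    have hs := summable_geometric_of_lt_one hr0 hr1
    refine (hs.sum_le_tsum A fun j _ => pow_nonneg hr0 j).trans ?_
    rw [tsum_geometric_of_lt_one hr0 hr1, inv_le_comm₀ (by linarith) (by positivity), inv_div]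
    exact hr2
  have hsplit := Finset.sum_filter_add_sum_filter_not S (fun n : ℕ => y ≤ (n : ℝ))
    (fun n => Real.exp (-(c * |(n : ℝ) - y|)))
  rw [← hsplit]
  have hup : ∑ n ∈ S.filter (fun n : ℕ => y ≤ (n : ℝ)), Real.exp (-(c * |(n : ℝ) - y|)) ≤ 2 / c := by
    refine le_trans ?_ (hgeo ((S.filter (fun n : ℕ => y ≤ (n : ℝ))).image (fun n => n - ⌈y⌉₊)))
    rw [Finset.sum_image]
    · refine Finset.sum_le_sum fun n hn => ?_
      rw [Finset.mem_filter] at hn
      have h1 : ⌈y⌉₊ ≤ n := Nat.ceil_le.mpr hn.2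
      have h2 : y ≤ ⌈y⌉₊ := Nat.le_ceil y
      rw [hr, ← Real.exp_nat_mul, abs_of_nonneg (by linarith [hn.2])]
      apply Real.exp_le_exp.mpr
      rw [Nat.cast_sub h1]
      nlinarith
    · intro a ha b hb hab
      rw [Finset.mem_coe, Finset.mem_filter] at ha hb
      have h1 : ⌈y⌉₊ ≤ a := Nat.ceil_le.mpr ha.2
      have h2 : ⌈y⌉₊ ≤ b := Nat.ceil_le.mpr hb.2
      simp only at hab
      omega
  have hlo : ∑ n ∈ S.filter (fun n : ℕ => ¬ y ≤ (n : ℝ)), Real.exp (-(c * |(n : ℝ) - y|)) ≤ 2 / c := by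
    refine le_trans ?_ (hgeo ((S.filter (fun n : ℕ => ¬ y ≤ (n : ℝ))).image (fun n => ⌊y⌋₊ - n)))
    rw [Finset.sum_image]
    · refine Finset.sum_le_sum fun n hn => ?_
      rw [Finset.mem_filter] at hn
      have hlt : (n : ℝ) < y := not_le.mp hn.2
      have hy0 : 0 ≤ y := (Nat.cast_nonneg n).trans hlt.le
      have h1 : n ≤ ⌊y⌋₊ := Nat.le_floor hlt.le
      have h2 : (⌊y⌋₊ : ℝ) ≤ y := Nat.floor_le hy0
      rw [hr, ← Real.exp_nat_mul, abs_of_nonpos (by linarith)]
      apply Real.exp_le_exp.mpr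
      rw [Nat.cast_sub h1]
      nlinarith
    · intro a ha b hb hab
      rw [Finset.mem_coe, Finset.mem_filter] at ha hb
      have hlta : (a : ℝ) < y := not_le.mp ha.2
      have hltb : (b : ℝ) < y := not_le.mp hb.2
      have h1 : a ≤ ⌊y⌋₊ := Nat.le_floor hlta.le
      have h2 : b ≤ ⌊y⌋₊ := Nat.le_floor hltb.le
      simp only at hab
      omega
  have : 4 / c = 2 / c + 2 / c := by ring
  linarith

/-- the window lemma for Dirichlet sums: `J = ∫_α^β A`. -/
theorem window_sum {T : ℝ} (hT : 0 < T) (S : Finset ℕ) (g : ℕ → ℝ) {α β : ℝ} (hαβ : α ≤ β) :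
    |(∫ v in α..β, AA S g T v) - m0 T * ∑ n ∈ S.filter (fun n : ℕ => α < Real.log n ∧ Real.log n ≤ β), g n| ≤
      Real.exp (1 / 2) / T * ((∑ n ∈ S, |g n| * Real.exp (-(T * |Real.log n - α|))) +
        ∑ n ∈ S, |g n| * Real.exp (-(T * |Real.log n - β|))) := by
  have h1 : ∫ v in α..β, AA S g T v = ∑ n ∈ S, g n * ∫ v in α..β, gb T (Real.log n) v := by
    unfold AA
    rw [intervalIntegral.integral_finsetSum]
    · refine Finset.sum_congr rfl fun n _ => ?_
      rw [← intervalIntegral.integral_const_mul]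
      rfl
    · intro n _
      apply Continuous.intervalIntegrable
      fun_prop
  have h2 : m0 T * ∑ n ∈ S.filter (fun n : ℕ => α < Real.log n ∧ Real.log n ≤ β), g n =
      ∑ n ∈ S, g n * (if α < Real.log n ∧ Real.log n ≤ β then m0 T else 0) := by
    rw [Finset.sum_filter, Finset.mul_sum]
    refine Finset.sum_congr rfl fun n _ => ?_
    split_ifs <;> ring
  rw [h1, h2, ← Finset.sum_sub_distrib, ← Finset.sum_add_distrib, Finset.mul_sum]
  refine (Finset.abs_sum_le_sum_abs _ _).trans (Finset.sum_le_sum fun n _ => ?_)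
  rw [← mul_sub, abs_mul]
  refine (mul_le_mul_of_nonneg_left (window_step hT (Real.log n) hαβ) (abs_nonneg _)).trans
    (le_of_eq ?_)
  ring

end Pool.Agent.H62.MR
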